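import Pool.Agent.Helper39.Trans.Lin

/-!
# Generic perturbations are in general position (packet G of MP_549fdb_co)
-/

set_option autoImplicit false

namespace Pool.Agent.Helper79.Trans

open Finset Classical Matrix Pool.Agent.Helper39.Trans Pool.Agent.Helper39.Trans.Sys

section

variable {n : ℕ} {ι Λ κ : Type} [Fintype ι] [Fintype Λ] [Fintype κ] (A : Sys n ι Λ κ)

/-- The coefficient vectors belonging to a pattern. -/
def Lam (P : Finset ι) (I : Finset Λ) (B : Finset κ) (z : (ι → ℝ) × (κ → ℝ)) : Prop :=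
  (∀ v, v ∉ P → z.1 v = 0) ∧ (∀ k, k ∉ B → z.2 k = 0) ∧
    (∀ l, l ∉ I → ∑ v ∈ A.fib l, z.1 v = 0) ∧
    (∑ v, z.1 v • A.a v + ∑ k, z.2 k • A.ba k = 0)

/-- The polynomial of a coefficient vector. -/
noncomputable def pol (z : (ι → ℝ) × (κ → ℝ)) : MvPolynomial (ι ⊕ κ) ℝ :=
  ∑ v, MvPolynomial.C (z.1 v) * (MvPolynomial.X (Sum.inl v) + MvPolynomial.C (A.b v)) +
    ∑ k, MvPolynomial.C (z.2 k) * (MvPolynomial.X (Sum.inr k) + MvPolynomial.C (A.bb k))

omit [Fintype Λ] in
theorem eval_pol (z : (ι → ℝ) × (κ → ℝ)) (x : ι ⊕ κ → ℝ) :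
    MvPolynomial.eval x (pol A z) =
      ∑ v, z.1 v * (x (Sum.inl v) + A.b v) + ∑ k, z.2 k * (x (Sum.inr k) + A.bb k) := by
  simp [pol, map_sum]

omit [Fintype Λ] in
theorem pol_ne_zero {z : (ι → ℝ) × (κ → ℝ)} (hz : z ≠ 0) : pol A z ≠ 0 := by
  intro h0
  apply hz
  have key : ∀ x : ι ⊕ κ → ℝ,
      ∑ v, z.1 v * (x (Sum.inl v) + A.b v) + ∑ k, z.2 k * (x (Sum.inr k) + A.bb k) = 0 := by
    intro x
    rw [← eval_pol, h0, map_zero]
  ext v
  · have := key (Sum.elim (fun w => (if w = v then 1 else 0) - A.b w) (fun k => - A.bb k))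
    simpa using this
  · have := key (Sum.elim (fun w => - A.b w) (fun k => (if k = v then 1 else 0) - A.bb k))
    simpa using this

omit [Fintype Λ] in
/-- A point of the open box outside the bad hyperplanes. -/
theorem exists_generic (ε : ℝ) (hε : 0 < ε) (T : Finset ((ι → ℝ) × (κ → ℝ)))
    (hT : ∀ z ∈ T, z ≠ 0) :
    ∃ x : ι ⊕ κ → ℝ, (∀ v, -ε < x (Sum.inl v) ∧ x (Sum.inl v) < 0) ∧
      (∀ k, 0 < x (Sum.inr k) ∧ x (Sum.inr k) < ε) ∧
      ∀ z ∈ T, MvPolynomial.eval x (pol A z) ≠ 0 := by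
  set p : MvPolynomial (ι ⊕ κ) ℝ := ∏ z ∈ T, pol A z with hp
  have hp0 : p ≠ 0 := by
    rw [hp, Finset.prod_ne_zero_iff]
    exact fun z hz => pol_ne_zero A (hT z hz)
  set s : ι ⊕ κ → Set ℝ := Sum.elim (fun _ => Set.Ioo (-ε) 0) (fun _ => Set.Ioo 0 ε) with hs
  have hinf : ∀ i, (s i).Infinite := by
    rintro (v | k)
    · exact Set.Ioo_infinite (by linarith)
    · exact Set.Ioo_infinite (by linarith)
  by_contra hcon
  push Not at hcon
  apply hp0
  refine MvPolynomial.funext_set s hinf fun x hx => ?_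
  have h1 : ∀ v, -ε < x (Sum.inl v) ∧ x (Sum.inl v) < 0 := fun v => hx (Sum.inl v) (Set.mem_univ _)
  have h2 : ∀ k, 0 < x (Sum.inr k) ∧ x (Sum.inr k) < ε := fun k => hx (Sum.inr k) (Set.mem_univ _)
  obtain ⟨z, hz, h0⟩ := hcon x h1 h2
  rw [hp, map_prod, map_zero]
  exact Finset.prod_eq_zero hz h0

/-- The identity behind the argument. -/
theorem eval_pol_eq_zero {δ : ι → ℝ} {η : κ → ℝ} {q : Fin n → ℝ} {z : (ι → ℝ) × (κ → ℝ)}
    (hz : Lam A (univ.filter fun v => v ∈ (A.shift δ η).W (A.grp v) q) ((A.shift δ η).Ig q)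
      ((A.shift δ η).Bt q) z) :
    MvPolynomial.eval (Sum.elim δ η) (pol A z) = 0 := by
  obtain ⟨h1, h2, h3, h4⟩ := hz
  set A' := A.shift δ η with hA'
  have e1 : MvPolynomial.eval (Sum.elim δ η) (pol A z) =
      ∑ v, z.1 v * A'.h v q + ∑ k, z.2 k * A'.bx k q := by
    rw [eval_pol]
    have h5 : (∑ v, z.1 v * (A.a v ⬝ᵥ q)) + ∑ k, z.2 k * (A.ba k ⬝ᵥ q) = 0 := by
      have h6 := congrArg (fun y => y ⬝ᵥ q) h4
      simpa [add_dotProduct, sum_dotProduct, smul_dotProduct] using h6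
    have h7 : ∑ v, z.1 v * A'.h v q = ∑ v, z.1 v * (A.a v ⬝ᵥ q) +
        ∑ v, z.1 v * (δ v + A.b v) := by
      rw [← sum_add_distrib]
      refine sum_congr rfl fun v _ => ?_
      simp only [Sys.h, hA', Sys.shift]
      ring
    have h8 : ∑ k, z.2 k * A'.bx k q = ∑ k, z.2 k * (A.ba k ⬝ᵥ q) +
        ∑ k, z.2 k * (η k + A.bb k) := by
      rw [← sum_add_distrib]
      refine sum_congr rfl fun k _ => ?_
      simp only [Sys.bx, hA', Sys.shift]
      ring
    rw [h7, h8]
    simp only [Sum.elim_inl, Sum.elim_inr]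
    linarith
  rw [e1]
  have e2 : ∑ k, z.2 k * A'.bx k q = 0 := by
    refine sum_eq_zero fun k _ => ?_
    by_cases hk : k ∈ A'.Bt q
    · have : A'.bx k q = 0 := by simpa [Sys.Bt] using hk
      rw [this, mul_zero]
    · rw [h2 k hk, zero_mul]
  have e3 : ∑ v, z.1 v * A'.h v q = 0 := by
    rw [← sum_fiberwise (s := univ) (g := A.grp)]
    refine sum_eq_zero fun l _ => ?_
    by_cases hl : l ∈ A'.Ig q
    · have hl' : A'.Act l q := by simpa [Sys.Ig] using hl
      refine sum_eq_zero fun v hv => ?_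
      have hv' : A.grp v = l := by simpa using hv
      by_cases hP : v ∈ A'.W (A.grp v) q
      · rw [h_eq_zero_of_act A' hl' (hv' ▸ hP), mul_zero]
      · rw [h1 v (by simpa using hP), zero_mul]
    · have h5 := h3 l hl
      by_cases hne : ∃ w, w ∈ A'.W l q
      · obtain ⟨w, hw⟩ := hne
        have h6 : ∀ v ∈ univ.filter (fun v => A.grp v = l), z.1 v * A'.h v q =
            z.1 v * A'.h w q := by
          intro v hv
          have hv' : A.grp v = l := by simpa using hv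
          by_cases hP : v ∈ A'.W (A.grp v) q
          · rw [h_eq_of_mem_W A' (hv' ▸ hP) hw]
          · rw [h1 v (by simpa using hP), zero_mul, zero_mul]
        rw [sum_congr rfl h6, ← sum_mul]
        have h7 : ∑ v ∈ univ.filter (fun v => A.grp v = l), z.1 v = 0 := h5
        rw [h7, zero_mul]
      · refine sum_eq_zero fun v hv => ?_
        have hv' : A.grp v = l := by simpa using hv
        have hP : v ∉ A'.W (A.grp v) q := by
          rw [hv']
          exact fun h => hne ⟨v, h⟩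
        rw [h1 v (by simpa using hP), zero_mul]
  rw [e2, e3, add_zero]

end

theorem existsGP : ExistsGP := by
  intro n ι Λ κ _ _ _ A ε hε
  -- the chosen coefficient vectors
  let ch : Finset ι × Finset Λ × Finset κ → (ι → ℝ) × (κ → ℝ) := fun P =>
    if h : ∃ z, z ≠ 0 ∧ Lam A P.1 P.2.1 P.2.2 z then h.choose else 0
  let T : Finset ((ι → ℝ) × (κ → ℝ)) := (univ.image ch).filter (· ≠ 0)
  obtain ⟨x, hx1, hx2, hx3⟩ := exists_generic A ε hε T (fun z hz => (mem_filter.1 hz).2)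
  refine ⟨fun v => x (Sum.inl v), fun k => x (Sum.inr k), hx1, hx2, ?_⟩
  intro q _ lam mu hlam hmu hact hsum
  by_contra hne
  set A' := A.shift (fun v => x (Sum.inl v)) (fun k => x (Sum.inr k)) with hA'
  set P : Finset ι × Finset Λ × Finset κ :=
    (univ.filter fun v => v ∈ A'.W (A.grp v) q, A'.Ig q, A'.Bt q) with hP
  have hex : ∃ z, z ≠ 0 ∧ Lam A P.1 P.2.1 P.2.2 z := by
    refine ⟨(lam, mu), ?_, ?_, ?_, ?_, ?_⟩
    · intro h
      apply hne
      exact ⟨congrArg Prod.fst h, congrArg Prod.snd h⟩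
    · intro v hv
      by_contra h0
      have h5 : v ∈ A'.W (A.grp v) q := hlam v h0
      exact hv (by simpa [hP] using h5)
    · intro k hk
      by_contra h0
      exact hk (hmu k h0)
    · intro l hl
      exact hact l (by simpa [hP, Sys.Ig] using hl)
    · exact hsum
  have hch : ch P = hex.choose := dif_pos hex
  have hspec := hex.choose_spec
  rw [← hch] at hspec
  have hmem : ch P ∈ T := mem_filter.2 ⟨mem_image_of_mem _ (mem_univ _), hspec.1⟩
  apply hx3 _ hmem
  have hxe : x = Sum.elim (fun v => x (Sum.inl v)) (fun k => x (Sum.inr k)) := by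
    ext i
    rcases i with v | k <;> rfl
  rw [hxe]
  exact eval_pol_eq_zero A hspec.2

end Pool.Agent.Helper79.Trans
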